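import Pool.Agent.W805.LR.Stm6
import Pool.Agent.W805.LR.Basic
import Pool.Agent.W333.LR.PA
import Pool.Agent.W248.LR.PB

/-! DF: the number of points in short cycles changes by at most `2 s` if one transposition is
inserted. -/

set_option autoImplicit false

namespace Pool.Agent.W465.PD.DF

open Finset Equiv
open Pool.Agent.W805.LR Pool.Agent.W805.PD

theorem one_side {V : Type} [Fintype V] [DecidableEq V] (g : Perm V) (u w : V) (s : ℝ)
    (hs : 0 ≤ s) :
    (cnt fun v => len (swap u w * g) v < s) ≤ (cnt fun v => len g v < s) + 2 * s := by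
  have h1 := (Pool.Agent.W248.LR.main_damage Pool.Agent.W333.LR.main_merge
    Pool.Agent.W333.LR.main_split V g u w s hs).1
  have h2 : (cnt fun v => len (swap u w * g) v < s) ≤ (cnt fun v => len g v < s) +
      cnt fun v => s ≤ len g v ∧ len (swap u w * g) v < s := by
    refine cnt_le_add fun v hv => ?_
    rcases lt_or_ge (len g v) s with h | h
    · exact Or.inl h
    · exact Or.inr ⟨h, hv⟩
  linarith

theorem main : S_diff := by
  intro V _ _ s a b x y hs
  have h1 : a * swap x y * b = swap (a x) (a y) * (a * b) := by
    rw [Equiv.mul_swap_eq_swap_mul, mul_assoc]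
  rw [h1]
  have h2 := one_side (a * b) (a x) (a y) s hs
  have h3 := one_side (swap (a x) (a y) * (a * b)) (a x) (a y) s hs
  rw [Equiv.swap_mul_self_mul] at h3
  rw [abs_le]
  constructor <;> linarith

end Pool.Agent.W465.PD.DF
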